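import Pool.Agent.X232.CF.H.Red
import Pool.Agent.X232.CF.E.Loop
set_option autoImplicit false

/-!
Loops on the curves `z + 1/z = F(x)` for all small radii, and loops which avoid the zeros of a given
function.
-/

namespace Pool.Agent.X232.CF.H

open Polynomial Metric

open Pool.Agent.TH826.MK (Torus symb circ norm_circ contDiff_circ circ_add_one)

open Pool.Agent.TH826.HD Pool.Agent.TH826.UH

open Pool.Agent.X232.CU (Av)

open Pool.Agent.X232.CF.E (exists_radius_avoid finite_norms zpol zpol_X zpol_C)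

variable {K : Type*} [Field K] {s : K →+* ℂ} {g : ℕ} {F : K[X]} {b : Fin (g + 1) → K}
  {ρ η : ℝ}

theorem exists_loops_radius (H : Sepd (F.map s) (fun j => s (b j)) ρ η)
    (hfar : ∀ i, ∃ N : Finset (Fin (g + 1)),
      (N.card : ℝ) * (2 * Real.log 2) ≤ Real.log ‖(F.map s).leadingCoeff‖ ∧
      ∀ j, i ≠ j → (j ∉ N → ρ + 1 ≤ ‖s (b i) - s (b j)‖) ∧ ρ + 1 / 2 ≤ ‖s (b i) - s (b j)‖)
    (ht : ∀ m, ∃ ζ : ℂ, ‖ζ‖ = 1 ∧ s (F.eval (b m)) = ζ + ζ⁻¹) {R : ℝ} (hR : 1 < R)
    (hRη : R + R⁻¹ < 2 + η) :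
    ∃ Γ : Fin g → Torus (POpen F b) 1,
      (∀ l θ (y : K), (Γ l).e θ (pcst F b y) = s y) ∧
      (∀ l θ, (Γ l).e θ (toP F b (pz F)) = circ R (θ 0)) ∧
      (Matrix.of fun l k : Fin g => (Γ l).reg (symb (pent F b k.succ 0))).det ≠ 0 := by
  obtain ⟨x, han, hdisc, hprod, -⟩ := H.exists_branches
  have hR0 : 0 < R := one_pos.trans hR
  have hz := nz_circ hR0
  set u : ℝ → ℂ := fun t => circ R t + (circ R t)⁻¹ with hu
  have hucd : ContDiff ℝ 2 u := (contDiff_circ R).add ((contDiff_circ R).inv hz.ne_zero)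
  have hub : ∀ t, u t ∈ ball (0 : ℂ) (2 + η) := by
    intro t
    rw [mem_ball_zero_iff]
    refine (norm_add_le _ _).trans_lt ?_
    rw [norm_inv, norm_circ hR0.le]
    exact hRη
  have hper : ∀ t, u (t + 1) = u t := fun t => by
    simp only [hu, circ_add_one]
  set Y : Fin (g + 1) → ℝ → ℂ := fun j t => x j (u t) with hY
  have hYcd : ∀ j, ContDiff ℝ 2 (Y j) := by
    intro j
    rw [contDiff_iff_contDiffAt]
    intro t
    exact ((han j _ (hub t)).contDiffAt.restrict_scalars ℝ).comp t hucd.contDiffAt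
  have hYper : ∀ j t, Y j (t + 1) = Y j t := fun j t => by
    simp only [hY, hper]
  have hval : ∀ j t, F.eval₂ s (Y j t) = u t := by
    intro j t
    have h1 := eval_map_sub (hprod _ (hub t)) (Y j t)
    rw [Finset.prod_eq_zero (Finset.mem_univ j) (by simp [hY]), mul_zero] at h1
    exact sub_eq_zero.1 h1
  have hsF : ∀ m, s (F.eval (b m)) = F.eval₂ s (s (b m)) := fun m => by
    rw [Polynomial.eval₂_hom]
  have hne : ∀ j t m, Y j t ≠ s (b m) := by
    intro j t m h
    obtain ⟨ζ, hζ, hζ'⟩ := ht m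
    have hζ0 : ζ ≠ 0 := fun h0 => by rw [h0, norm_zero] at hζ; exact zero_ne_one hζ
    have h1 := hval j t
    rw [h, ← hsF, hζ'] at h1
    have h2 := hz.ne_zero t
    have h3 : (circ R t - ζ) * (circ R t - ζ⁻¹) = 0 := by
      have h4 : u t = circ R t + (circ R t)⁻¹ := rfl
      rw [h4] at h1
      have h5 : circ R t * (circ R t)⁻¹ = 1 := mul_inv_cancel₀ h2
      have h6 : ζ * ζ⁻¹ = 1 := mul_inv_cancel₀ hζ0
      linear_combination (-circ R t) * h1 - h5 + h6
    rcases mul_eq_zero.1 h3 with h4 | h4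
    · have h5 := congrArg norm (sub_eq_zero.1 h4)
      rw [norm_circ hR0.le, hζ] at h5
      exact hR.ne' h5
    · have h5 := congrArg norm (sub_eq_zero.1 h4)
      rw [norm_circ hR0.le, norm_inv, hζ, inv_one] at h5
      exact hR.ne' h5
  have hP : ∀ j t, PtS s F b (Y j t) (circ R t) := by
    intro j t
    refine ⟨?_, hne j t⟩
    rw [hval j t]
    have h2 : circ R t * (circ R t)⁻¹ = 1 := mul_inv_cancel₀ (hz.ne_zero t)
    have h4 : u t = circ R t + (circ R t)⁻¹ := rfl
    rw [h4]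
    linear_combination -h2
  set I : Fin (g + 1) → Fin (g + 1) → ℝ := fun i j => pr (circ R) (fun t => Y j t - s (b i))
    with hI
  have nY : ∀ i j, NZ fun t => s (b i) - Y j t := fun i j =>
    ⟨contDiff_const.sub (hYcd j), fun t => sub_ne_zero.2 (hne j t i).symm⟩
  have hIneg : ∀ i j, I i j = pr (circ R) (fun t => s (b i) - Y j t) := by
    intro i j
    rw [hI]
    simp only
    rw [← pr_neg]
    congr 1
    funext t
    ring
  set μ : ℂ := (F.map s).leadingCoeff with hμ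
  have hμ0 : μ ≠ 0 := H.lead_ne_zero
  have hrow : ∀ i, ∑ j, I i j = 2 * Real.pi * Real.log ‖μ‖ := by
    intro i
    obtain ⟨ζ, hζ, hζ'⟩ := ht i
    simp only [hIneg]
    rw [← pr_prod Finset.univ hz (fun j => nY i j)]
    have hc : NZ fun _ : ℝ => μ := ⟨contDiff_const, fun _ => hμ0⟩
    have h1 := pr_mul hz hc (NZ.prod Finset.univ (fun j => nY i j))
    have h2 : pr (circ R) (fun t => μ * ∏ j, (s (b i) - Y j t)) = 0 := by
      rw [← pr_circ hR hζ, ← pr_neg]
      congr 1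
      funext t
      have h3 := eval_map_sub (hprod _ (hub t)) (s (b i))
      rw [← hsF, hζ'] at h3
      have h4 : u t = circ R t + (circ R t)⁻¹ := rfl
      rw [h4] at h3
      have h5 : ∏ j, (s (b i) - Y j t) = ∏ j, (s (b i) - x j (circ R t + (circ R t)⁻¹)) := rfl
      rw [h5, ← h3]
      ring
    rw [h2, pr_const hR0] at h1
    linarith
  have hlt : ∀ i j, ∀ d : ℝ, 0 < d → ρ + d ≤ ‖s (b j) - s (b i)‖ →
      I i j < -(2 * Real.pi * Real.log d) := by
    intro i j d hd h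
    rw [hI]
    exact pr_lt_of_disc hR (hYcd j) (hYper j) (c := s (b j)) hd (fun t => hdisc j _ (hub t)) h
  have hlog2 : 0 < Real.log 2 := Real.log_pos (by norm_num)
  have hneg : ∀ i j, ρ + 1 ≤ ‖s (b j) - s (b i)‖ → I i j < 0 := by
    intro i j h
    have h1 := hlt i j 1 one_pos h
    rwa [Real.log_one, mul_zero, neg_zero] at h1
  have hhalf : ∀ i j, ρ + 1 / 2 ≤ ‖s (b j) - s (b i)‖ → I i j < 2 * Real.pi * Real.log 2 := by
    intro i j h
    have h1 := hlt i j (1 / 2) (by norm_num) h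
    rw [one_div, Real.log_inv, mul_neg, neg_neg] at h1
    exact h1
  have hκ : 0 ≤ 2 * Real.pi * Real.log ‖μ‖ := by
    obtain ⟨N, hN, -⟩ := hfar 0
    have h1 : 0 ≤ (N.card : ℝ) * (2 * Real.log 2) := by positivity
    have h2 := h1.trans hN
    have := Real.pi_pos
    positivity
  have hall : ∀ i, (∀ j, i ≠ j → I i j < 0) ∨
      2 * ∑ j ∈ Finset.univ.erase i, max (I i j) 0 < 2 * Real.pi * Real.log ‖μ‖ := by
    intro i
    obtain ⟨N, hN, hfar'⟩ := hfar i
    by_cases hemp : N.erase i = ∅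
    · left
      intro j hij
      refine hneg i j ?_
      rw [norm_sub_rev]
      refine (hfar' j hij).1 fun hj => ?_
      have : j ∈ N.erase i := Finset.mem_erase.2 ⟨Ne.symm hij, hj⟩
      rw [hemp] at this
      exact absurd this (Finset.notMem_empty j)
    · right
      have h1 : ∑ j ∈ Finset.univ.erase i, max (I i j) 0 = ∑ j ∈ N.erase i, max (I i j) 0 := by
        symm
        refine Finset.sum_subset (Finset.erase_subset_erase _ (Finset.subset_univ N)) ?_
        intro j hj hjN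
        have hij : i ≠ j := (Finset.ne_of_mem_erase hj).symm
        have hjN' : j ∉ N := fun h => hjN (Finset.mem_erase.2 ⟨Ne.symm hij, h⟩)
        refine max_eq_right (hneg i j ?_).le
        rw [norm_sub_rev]
        exact (hfar' j hij).1 hjN'
      have h2 : ∑ j ∈ N.erase i, max (I i j) 0 <
          ∑ _j ∈ N.erase i, 2 * Real.pi * Real.log 2 := by
        refine Finset.sum_lt_sum_of_nonempty (Finset.nonempty_iff_ne_empty.2 hemp) ?_
        intro j hj
        have hij : i ≠ j := (Finset.ne_of_mem_erase hj).symm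
        refine max_lt (hhalf i j ?_) (by positivity)
        rw [norm_sub_rev]
        exact (hfar' j hij).2
      rw [Finset.sum_const, nsmul_eq_mul] at h2
      rw [h1]
      have h3 : ((N.erase i).card : ℝ) ≤ N.card := by
        exact_mod_cast Finset.card_erase_le
      have h4 : ((N.erase i).card : ℝ) * (2 * Real.pi * Real.log 2) ≤
          N.card * (2 * Real.pi * Real.log 2) :=
        mul_le_mul_of_nonneg_right h3 (by positivity)
      have h5 : 2 * (N.card * (2 * Real.pi * Real.log 2)) ≤ 2 * Real.pi * Real.log ‖μ‖ := by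
        have h6 := mul_le_mul_of_nonneg_left hN (by positivity : 0 ≤ 2 * Real.pi)
        linarith
      linarith
  refine ⟨fun l => mkS (hYcd l.succ) hz.smooth (hYper l.succ) (circ_add_one R)
    (fun t => hP l.succ t), fun l θ y => ?_, fun l θ => ?_, ?_⟩
  · rw [mkS_e, PtS.evA_pcst]
  · rw [mkS_e]
    exact (hP l.succ (θ 0)).evA_uz
  · have h := det_ne_zero' I hκ hrow hall
    have e : (Matrix.of fun l k : Fin g => (mkS (hYcd l.succ) hz.smooth (hYper l.succ)
        (circ_add_one R) (fun t => hP l.succ t)).reg (symb (pent F b k.succ 0))) =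
        Matrix.of fun l k : Fin g => I k.succ l.succ - I 0 l.succ := by
      ext l k
      rw [Matrix.of_apply, Matrix.of_apply, mkS_reg (hYcd l.succ) hz]
    rw [e]
    exact h


theorem zpol_torus {n : ℕ} {b : Fin n → K} {Γ : Torus (POpen F b) 1} {R : ℝ}
    (h1 : ∀ θ (y : K), Γ.e θ (pcst F b y) = s y)
    (h2 : ∀ θ, Γ.e θ (toP F b (pz F)) = circ R (θ 0)) (c : K[X]) (θ : Fin 1 → ℝ) :
    Γ.e θ (zpol F b c) = c.eval₂ s (circ R (θ 0)) := by
  unfold zpol
  rw [coe_eval₂RingHom, hom_eval₂, h2]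
  congr 1
  exact RingHom.ext fun y => h1 θ y

/-- loops which avoid the zeros of `f` -/
theorem exists_loops_avoid (H : Sepd (F.map s) (fun j => s (b j)) ρ η)
    (hfar : ∀ i, ∃ N : Finset (Fin (g + 1)),
      (N.card : ℝ) * (2 * Real.log 2) ≤ Real.log ‖(F.map s).leadingCoeff‖ ∧
      ∀ j, i ≠ j → (j ∉ N → ρ + 1 ≤ ‖s (b i) - s (b j)‖) ∧ ρ + 1 / 2 ≤ ‖s (b i) - s (b j)‖)
    (ht : ∀ m, ∃ ζ : ℂ, ‖ζ‖ = 1 ∧ s (F.eval (b m)) = ζ + ζ⁻¹) (hF : 0 < F.natDegree)
    {f : POpen F b} (hf : f ≠ 0) :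
    ∃ Γ : Fin g → Torus (POpen F b) 1,
      (∀ l θ (y : K), (Γ l).e θ (pcst F b y) = s y) ∧ (∀ l, Av (Γ l) f) ∧
      (Matrix.of fun l k : Fin g => (Γ l).reg (symb (pent F b k.succ 0))).det ≠ 0 := by
  obtain ⟨c, hc, hfc⟩ := exists_dvd_z hF hf
  obtain ⟨B, hB, hBR⟩ := finite_norms s hc
  obtain ⟨R, hR, hRη, hRB⟩ := exists_radius_avoid H.eta hB
  obtain ⟨Γ, h1, h2, h3⟩ := exists_loops_radius H hfar ht hR hRη
  refine ⟨Γ, h1, fun l θ h0 => ?_, h3⟩
  obtain ⟨k, hk⟩ := hfc
  have h4 := zpol_torus (h1 l) (h2 l) c θ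
  rw [hk, map_mul, h0, zero_mul] at h4
  exact hBR R (zero_le_one.trans hR.le) hRB (θ 0) h4.symm

end Pool.Agent.X232.CF.H
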