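import Pool.Agent.X232.CF.H.Loop
import Pool.Agent.X232.CF.P.Main
set_option autoImplicit false

/-!
The regulator isomorphism for the hyperelliptic curves `z + 1/z = 2 e + μ ∏ (x - b_i)`.
-/

namespace Pool.Agent.X232.CF.H

open Polynomial

open Pool.Agent.TH826.MK (Torus symb KQ Unramified)

open Pool.Agent.TH826.HD Pool.Agent.TH826.UH

open Pool.Agent.X232.CU (Av)

open Pool.Agent.X232.CF.E (isDomain_POpen)

section

variable {K : Type*} [Field K] {g : ℕ} {mu e : K} {b : Fin (g + 1) → K}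

theorem int_FH (imu : IsIntegral ℤ mu) (ie : IsIntegral ℤ e) (ib : ∀ i, IsIntegral ℤ (b i))
    (n : ℕ) : IsIntegral ℤ ((FH mu e b).coeff n) := by
  have i2 : IsIntegral ℤ (2 * e) := by
    have h : IsIntegral ℤ (2 : K) := by
      have := isIntegral_algebraMap (R := ℤ) (A := K) (x := 2)
      simpa using this
    exact h.mul ie
  set P : (integralClosure ℤ K)[X] := C ⟨2 * e, i2⟩ + C ⟨mu, imu⟩ * ∏ i, (X - C ⟨b i, ib i⟩)
    with hP
  have h : FH mu e b = P.map (algebraMap (integralClosure ℤ K) K) := by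
    rw [hP, Polynomial.map_add, Polynomial.map_mul, map_C, map_C, Polynomial.map_prod]
    unfold FH
    congr 2
    refine Finset.prod_congr rfl fun i _ => ?_
    rw [Polynomial.map_sub, map_X, map_C]
    rfl
  rw [h, coeff_map]
  exact (P.coeff n).2

theorem eval_FH (i : Fin (g + 1)) : (FH mu e b).eval (b i) = 2 * e := by
  unfold FH
  rw [eval_add, eval_C, eval_mul, eval_prod, Finset.prod_eq_zero (Finset.mem_univ i) (by simp),
    mul_zero, add_zero]

theorem sq_of (he : e = 1 ∨ e = -1) : e ^ 2 = 1 := by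
  rcases he with rfl | rfl <;> norm_num

theorem special_e (s : K →+* ℂ) (he : e = 1 ∨ e = -1) (m : Fin (g + 1)) :
    ∃ (ζ : ℂ) (k : ℕ), k ≠ 0 ∧ ζ ^ k = 1 ∧ s ((FH mu e b).eval (b m)) = ζ + ζ⁻¹ := by
  refine ⟨s e, 2, two_ne_zero, by rw [← map_pow, sq_of he, map_one], ?_⟩
  have h : s e * s e = 1 := by rw [← map_mul, ← pow_two, sq_of he, map_one]
  rw [eval_FH, map_mul, map_ofNat, inv_eq_of_mul_eq_one_right h, two_mul]

theorem special_e' (s : K →+* ℂ) (he : e = 1 ∨ e = -1) (m : Fin (g + 1)) :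
    ∃ ζ : ℂ, ‖ζ‖ = 1 ∧ s ((FH mu e b).eval (b m)) = ζ + ζ⁻¹ := by
  obtain ⟨ζ, k, hk, h1, h2⟩ := special_e (mu := mu) (b := b) s he m
  refine ⟨ζ, ?_, h2⟩
  have h3 := congrArg norm h1
  rw [norm_pow, norm_one] at h3
  exact (pow_eq_one_iff_of_nonneg (norm_nonneg _) hk).1 h3

/-- the data of the curve -/
noncomputable def dataH [CharZero K] (hmu : mu ≠ 0) (he : e = 1 ∨ e = -1)
    (hb : Function.Injective b) (imu : IsIntegral ℤ mu) (ib : ∀ i, IsIntegral ℤ (b i))
    (s : K →+* ℂ) (L : Type*) [Field L] [Algebra (POpen (FH mu e b) b) L] :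
    Data (pcst (FH mu e b) b) L (Fin (g + 1) ⊕ Bool) (Option (Fin (g + 1))) (Fin g) where
  pl := plH hmu (sq_of he) hb
  pl_cst := cst_H hmu (sq_of he) hb
  inj := inj_H hmu (sq_of he) hb
  unif := unif_H hmu (sq_of he) hb
  gens := gensH mu e b
  units := units_H hmu (sq_of he) hb
  rank := rank_H hmu (sq_of he) hb
  cl := clH mu e b
  unr k := symb_mem_unramified _ s (int_FH imu (by
    rcases he with rfl | rfl
    · exact isIntegral_one
    · exact isIntegral_one.neg) ib) ib _ _ fun m => special_e s he m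
  red := red_H hmu he hb

/-- the loops over the embedding `s` -/
def OverH (s : K →+* ℂ) (Γ : Torus (POpen (FH mu e b) b) 1) : Prop :=
  ∀ θ (y : K), Γ.e θ (pcst (FH mu e b) b y) = s y

theorem iso_H [CharZero K] (hmu : mu ≠ 0) (he : e = 1 ∨ e = -1)
    (hb : Function.Injective b) (imu : IsIntegral ℤ mu) (ib : ∀ i, IsIntegral ℤ (b i))
    (s : K →+* ℂ) {ρ η : ℝ} (H : Sepd ((FH mu e b).map s) (fun j => s (b j)) ρ η)
    (hfar : ∀ i, ∃ N : Finset (Fin (g + 1)),
      (N.card : ℝ) * (2 * Real.log 2) ≤ Real.log ‖((FH mu e b).map s).leadingCoeff‖ ∧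
      ∀ j, i ≠ j → (j ∉ N → ρ + 1 ≤ ‖s (b i) - s (b j)‖) ∧ ρ + 1 / 2 ≤ ‖s (b i) - s (b j)‖)
    (L : Type*) [Field L] [Algebra (POpen (FH mu e b) b) L]
    [IsFractionRing (POpen (FH mu e b) b) L] :
    IsoModConstants (pcst (FH mu e b) b) L
      (fun (_ : Fin g) (Γ : Torus (POpen (FH mu e b) b) 1) => OverH s Γ) := by
  have hdom : IsDomain (POpen (FH mu e b) b) := isDomain_POpen (pos_FH hmu)
  refine iso_mod_constants (fun (_ : Fin g) (Γ : Torus (POpen (FH mu e b) b) 1) => OverH s Γ)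
    (fun _ Γ hΓ c => ⟨s c, fun θ => hΓ θ c⟩) (dataH hmu he hb imu ib s L) fun f hf => ?_
  exact exists_loops_avoid H hfar (special_e' s he) (pos_FH hmu) hf

theorem map_FH (s : K →+* ℂ) (mu e : K) (b : Fin (g + 1) → K) : (FH mu e b).map s =
    C (2 * s e) + C (s mu) * ∏ i, (X - C (s (b i))) := by
  unfold FH
  have h2 : s (2 * e) = 2 * s e := by rw [map_mul, map_ofNat]
  rw [Polynomial.map_add, Polynomial.map_mul, Polynomial.map_C, Polynomial.map_C,
    Polynomial.map_prod, h2]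
  simp only [Polynomial.map_sub, Polynomial.map_X, Polynomial.map_C]

theorem norm_e (s : K →+* ℂ) (he : e = 1 ∨ e = -1) : ‖(2 : ℂ) * s e‖ = 2 := by
  rcases he with rfl | rfl
  · rw [map_one, mul_one]
    norm_num
  · rw [map_neg, map_one]
    norm_num

/-- separated points -/
theorem sepd_far (hmu : mu ≠ 0) (he : e = 1 ∨ e = -1) (s : K →+* ℂ) {D : ℝ} (hD : 2 ≤ D)
    (hsep : ∀ i j, i ≠ j → D ≤ ‖s (b i) - s (b j)‖) (h1 : 1 ≤ ‖s mu‖)
    (hlt : 4 * 2 ^ (g + 1) < ‖s mu‖ * D ^ (g + 1)) :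
    ∃ ρ η, Sepd ((FH mu e b).map s) (fun j => s (b j)) ρ η ∧
      ∀ i, ∃ N : Finset (Fin (g + 1)),
      (N.card : ℝ) * (2 * Real.log 2) ≤ Real.log ‖((FH mu e b).map s).leadingCoeff‖ ∧
      ∀ j, i ≠ j → (j ∉ N → ρ + 1 ≤ ‖s (b i) - s (b j)‖) ∧
        ρ + 1 / 2 ≤ ‖s (b i) - s (b j)‖ := by
  have hmu' : s mu ≠ 0 := (_root_.map_ne_zero s).2 hmu
  obtain ⟨η, H⟩ := sepd_dist (b := fun i => s (b i)) hmu' (map_FH s mu e b) hD hsep
    (norm_e s he).le (by rw [norm_e s he]; linarith)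
  refine ⟨D / 2, η, H, fun i => ⟨∅, ?_, fun j hij => ?_⟩⟩
  · rw [Finset.card_empty, Nat.cast_zero, zero_mul, leadingCoeff_fam hmu' (map_FH s mu e b)]
    exact Real.log_nonneg h1
  · have h2 := hsep i j hij
    exact ⟨fun _ => by linarith, by linarith⟩

end

section int

variable {g : ℕ}

/-- integral points -/
theorem sepd_near {b : Fin (g + 1) → ℤ} (hb : Function.Injective b) {mu : ℤ} {e : ℚ}
    (he : e = 1 ∨ e = -1) (s : ℚ →+* ℂ) (h17 : 17 ≤ |mu|) :
    ∃ ρ η, Sepd ((FH (mu : ℚ) e fun i => (b i : ℚ)).map s) (fun j => s (b j : ℚ)) ρ η ∧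
      ∀ i, ∃ N : Finset (Fin (g + 1)),
      (N.card : ℝ) * (2 * Real.log 2) ≤
        Real.log ‖((FH (mu : ℚ) e fun i => (b i : ℚ)).map s).leadingCoeff‖ ∧
      ∀ j, i ≠ j → (j ∉ N → ρ + 1 ≤ ‖s (b i : ℚ) - s (b j : ℚ)‖) ∧
        ρ + 1 / 2 ≤ ‖s (b i : ℚ) - s (b j : ℚ)‖ := by
  have hsi : ∀ n : ℤ, s (n : ℚ) = (n : ℂ) := fun n => map_intCast s n
  have hmu0 : mu ≠ 0 := by
    rintro rfl
    norm_num at h17
  have hmu' : ((mu : ℤ) : ℂ) ≠ 0 := Int.cast_ne_zero.2 hmu0
  have hmap := map_FH s (mu : ℚ) e fun i => (b i : ℚ)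
  simp only [hsi] at hmap
  have hdist : ∀ i j, ‖((b i : ℤ) : ℂ) - ((b j : ℤ) : ℂ)‖ = |(b i : ℝ) - b j| := by
    intro i j
    have h1 : ((b i : ℤ) : ℂ) - ((b j : ℤ) : ℂ) = (((b i : ℝ) - b j : ℝ) : ℂ) := by
      push_cast
      ring
    rw [h1, Complex.norm_real, Real.norm_eq_abs]
  have hlog2 : 0 < Real.log 2 := Real.log_pos (by norm_num)
  have hlead : ((FH (mu : ℚ) e fun i => (b i : ℚ)).map s).leadingCoeff = ((mu : ℤ) : ℂ) :=
    leadingCoeff_fam hmu' hmap
  have h17' : (17 : ℝ) ≤ |(mu : ℝ)| := by exact_mod_cast h17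
  simp only [hsi]
  rw [hlead, Complex.norm_intCast]
  obtain ⟨η, H⟩ := sepd_int hb hmu' hmap (norm_e s he).le (by
    rw [Complex.norm_intCast]
    exact h17')
  refine ⟨1 / 2, η, H, fun i => ?_⟩
  refine ⟨Finset.univ.filter fun j => b j = b i - 1 ∨ b j = b i + 1, ?_, fun j hij => ?_⟩
  · have hcard : (Finset.univ.filter fun j => b j = b i - 1 ∨ b j = b i + 1).card ≤ 2 := by
      have h1 : ((Finset.univ.filter fun j => b j = b i - 1 ∨ b j = b i + 1).image b) ⊆
          {b i - 1, b i + 1} := by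
        intro y hy
        obtain ⟨j, hj, rfl⟩ := Finset.mem_image.1 hy
        have h2 := (Finset.mem_filter.1 hj).2
        simpa using h2
      rw [← Finset.card_image_of_injective _ hb]
      exact (Finset.card_le_card h1).trans Finset.card_le_two
    have hcard' : ((Finset.univ.filter fun j => b j = b i - 1 ∨ b j = b i + 1).card : ℝ) ≤ 2 := by
      exact_mod_cast hcard
    have h16 : 2 * (2 * Real.log 2) = Real.log 16 := by
      rw [show (16 : ℝ) = 2 ^ 4 by norm_num, Real.log_pow]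
      push_cast
      ring
    calc ((Finset.univ.filter fun j => b j = b i - 1 ∨ b j = b i + 1).card : ℝ) *
          (2 * Real.log 2) ≤ 2 * (2 * Real.log 2) :=
          mul_le_mul_of_nonneg_right hcard' (by positivity)
      _ = Real.log 16 := h16
      _ ≤ Real.log |(mu : ℝ)| := Real.log_le_log (by norm_num) (by linarith)
  · have hne : b i - b j ≠ 0 := sub_ne_zero.2 (hb.ne hij)
    have h1 : |(b i : ℝ) - b j| = ((|b i - b j| : ℤ) : ℝ) := by
      rw [Int.cast_abs, Int.cast_sub]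
    rw [hdist, h1]
    refine ⟨fun hj => ?_, ?_⟩
    · have h2 : ¬ (b j = b i - 1 ∨ b j = b i + 1) := fun h =>
        hj (Finset.mem_filter.2 ⟨Finset.mem_univ j, h⟩)
      push Not at h2
      have h3 : 2 ≤ |b i - b j| := by
        have h4 := Int.one_le_abs hne
        rcases abs_cases (b i - b j) with ⟨h5, -⟩ | ⟨h5, -⟩
        · have : b i - b j ≠ 1 := fun h => h2.1 (by omega)
          omega
        · have : b i - b j ≠ -1 := fun h => h2.2 (by omega)
          omega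
      have h4 : (2 : ℝ) ≤ ((|b i - b j| : ℤ) : ℝ) := by exact_mod_cast h3
      linarith
    · have h4 : (1 : ℝ) ≤ ((|b i - b j| : ℤ) : ℝ) := by exact_mod_cast Int.one_le_abs hne
      linarith

end int

section konst

variable {K A : Type*} [Field K] [CommRing A] (cst : K →+* A) (L : Type*) [Field L] [Algebra A L]

/-- the case without constants -/
theorem part_of_bot (h : konst cst L = ⊥) (h1 : Part cst L ≤ Unramified L 2 ⊔ konst cst L) {n : ℕ}
    (h2 : Module.finrank ℚ (PartMod cst L) = n) :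
    Part cst L ≤ Unramified L 2 ∧ Module.finrank ℚ (Part cst L) = n := by
  rw [h, sup_bot_eq] at h1
  refine ⟨h1, ?_⟩
  have h3 : (konst cst L).submoduleOf (Part cst L) = ⊥ := by
    rw [h, eq_bot_iff]
    intro x hx
    have hx' : (x : KQ L 2) ∈ (⊥ : Submodule ℚ (KQ L 2)) := hx
    rw [Submodule.mem_bot] at hx' ⊢
    exact Subtype.ext hx'
  rw [← h2]
  exact (Submodule.quotEquivOfEqBot _ h3).finrank_eq.symm

end konst

end Pool.Agent.X232.CF.H
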