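import Pool.Agent.X232.CF.H.Unit
set_option autoImplicit false

/-!
The relations between the symbols on the curve `z + 1/z = 2 e + μ ∏ (x - b_i)`.
-/

namespace Pool.Agent.X232.CF.H

open Polynomial

open Pool.Agent.TH826.HD

open Pool.Agent.TH826.MK (KQ symb)

open Pool.Agent.X232.CU (sy sy_mul_left sy_mul_right sy_prod_left sy_prod_right sy_zpow_left
  sy_zpow_right sy_one_left sy_one_right sy_div_left sy_div_right sy_inv_left sy_inv_right
  map_sy sy_self symb_eq_sy span_symb sy_steinberg)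

variable {K : Type*} [Field K] {g : ℕ} {mu e : K} {b : Fin (g + 1) → K}

/-- the classes -/
noncomputable def clH (mu e : K) (b : Fin (g + 1) → K) (k : Fin g) :
    KQ (POpen (FH mu e b) b) 2 := symb (pent (FH mu e b) b k.succ 0)

theorem clH_eq (k : Fin g) : clH mu e b k =
    sy (uz (FH mu e b) b) (ux (FH mu e b) b k.succ / ux (FH mu e b) b 0) := rfl

theorem ux_eq (m : Fin (g + 1)) : (ux (FH mu e b) b m : POpen (FH mu e b) b) =
    toP (FH mu e b) b (ppol (FH mu e b) X) - pcst (FH mu e b) b (b m) := by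
  rw [coe_ux, map_sub, map_sub]
  rfl

/-- two linear functions -/
theorem pi2_xx (hb : Function.Injective b) {i j : Fin (g + 1)} (hij : i ≠ j) :
    pi2 (pcst (FH mu e b) b) (sy (ux (FH mu e b) b i) (ux (FH mu e b) b j)) = 0 := by
  have h0 : b j - b i ≠ 0 := sub_ne_zero.2 (hb.ne hij.symm)
  refine pi2_lin _ _ _ (Units.mk0 _ h0)⁻¹ (-(Units.mk0 _ h0)⁻¹) ?_
  rw [ux_eq, ux_eq, Units.val_neg, Units.val_inv_eq_inv_val, Units.val_mk0, map_neg]
  have e' : pcst (FH mu e b) b (b j - b i)⁻¹ * (pcst (FH mu e b) b (b j) -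
      pcst (FH mu e b) b (b i)) = 1 := by
    rw [← map_sub, ← map_mul, inv_mul_cancel₀ h0, map_one]
  linear_combination e'

theorem z_eq (mu e : K) (b : Fin (g + 1) → K) : toP (FH mu e b) b (pz (FH mu e b)) ^ 2 -
    (pcst (FH mu e b) b (2 * e) + pcst (FH mu e b) b mu *
      ∏ i, (ux (FH mu e b) b i : POpen (FH mu e b) b)) * toP (FH mu e b) b (pz (FH mu e b)) +
      1 = 0 := by
  have h := congrArg (toP (FH mu e b) b) (pz_eq (FH mu e b))
  rw [map_zero, map_add, map_sub, map_mul, map_pow, map_one, toP_ppol, eval₂_FH] at h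
  simp only [ux_eq]
  exact h

theorem pi2_zprod (hmu : mu ≠ 0) (he : e = 1 ∨ e = -1) :
    ∑ i, pi2 (pcst (FH mu e b) b) (sy (uz (FH mu e b) b) (ux (FH mu e b) b i)) = 0 := by
  set cst := pcst (FH mu e b) b with hcst
  set h := uz (FH mu e b) b * cu cst (Units.mk0 mu hmu) * ∏ i, ux (FH mu e b) b i with hh
  have hee : e * e = 1 := by rcases he with rfl | rfl <;> norm_num
  have h3 : pi2 cst (sy (uz (FH mu e b) b) h) = 0 := by
    refine pi2_sq cst _ _ (cst e) ?_ ?_
    · rcases he with he | he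
      · exact Or.inl ((congrArg cst he).trans (map_one cst))
      · exact Or.inr ((congrArg cst he).trans ((map_neg cst 1).trans (congrArg _ (map_one cst))))
    · rw [hh, Units.val_mul, Units.val_mul, coe_cu, coe_uz, Units.val_mk0, Units.coe_prod]
      have e1 := z_eq mu e b
      rw [← hcst, map_mul, map_ofNat] at e1
      have e3 := congrArg cst hee
      rw [map_mul, map_one] at e3
      linear_combination -e1 - (toP (FH mu e b) b (pz (FH mu e b))) ^ 2 * e3
  rw [hh, sy_mul_right, sy_mul_right, map_add, map_add, pi2_right,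
    add_zero, alt_pi2, zero_add, sy_prod_right, map_sum] at h3
  exact h3

/-- `z` and a linear function -/
theorem pi2_z [CharZero K] (hmu : mu ≠ 0) (he : e = 1 ∨ e = -1) (m : Fin (g + 1)) :
    ∃ z' ∈ Submodule.span ℚ (Set.range (clH mu e b)),
    pi2 (pcst (FH mu e b) b) (sy (uz (FH mu e b) b) (ux (FH mu e b) b m)) =
      pi2 (pcst (FH mu e b) b) z' := by
  set v : Fin (g + 1) → _ := fun i =>
    pi2 (pcst (FH mu e b) b) (sy (uz (FH mu e b) b) (ux (FH mu e b) b i)) with hv
  have hsum : ∑ i, v i = 0 := pi2_zprod hmu he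
  have hcl : ∀ k : Fin g, pi2 (pcst (FH mu e b) b) (clH mu e b k) = v k.succ - v 0 := fun k => by
    rw [clH_eq, sy_div_right, map_sub]
  have h0 : ((g : ℚ) + 1) • v 0 = pi2 (pcst (FH mu e b) b) (-∑ k, clH mu e b k) := by
    rw [map_neg, map_sum]
    simp only [hcl]
    rw [Finset.sum_sub_distrib, Finset.sum_const, Finset.card_univ, Fintype.card_fin]
    rw [Fin.sum_univ_succ] at hsum
    have e1 : (g : ℕ) • v 0 = (g : ℚ) • v 0 := (Nat.cast_smul_eq_nsmul ℚ g _).symm
    rw [e1, add_smul, one_smul]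
    have e2 : ∑ k : Fin g, v k.succ = -v 0 := (neg_eq_of_add_eq_zero_right hsum).symm
    rw [e2]
    abel
  have hg : ((g : ℚ) + 1) ≠ 0 := by positivity
  have hmem : (-∑ k, clH mu e b k) ∈ Submodule.span ℚ (Set.range (clH mu e b)) :=
    Submodule.neg_mem _ (Submodule.sum_mem _ fun k _ => Submodule.subset_span ⟨k, rfl⟩)
  have h0' : v 0 = pi2 (pcst (FH mu e b) b) (((g : ℚ) + 1)⁻¹ • (-∑ k, clH mu e b k)) := by
    rw [map_smul, ← h0, smul_smul, inv_mul_cancel₀ hg, one_smul]
  refine Fin.cases ?_ (fun k => ?_) m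
  · exact ⟨_, Submodule.smul_mem _ _ hmem, h0'⟩
  · refine ⟨clH mu e b k + ((g : ℚ) + 1)⁻¹ • (-∑ k, clH mu e b k),
      Submodule.add_mem _ (Submodule.subset_span ⟨k, rfl⟩) (Submodule.smul_mem _ _ hmem), ?_⟩
    rw [map_add, ← h0', hcl, sub_add_cancel]

theorem red_H [CharZero K] (hmu : mu ≠ 0) (he : e = 1 ∨ e = -1) (hb : Function.Injective b)
    (i j : Option (Fin (g + 1))) :
    sy (gensH mu e b i) (gensH mu e b j) ∈ Submodule.span ℚ (Set.range (clH mu e b)) ⊔
      (C1 (pcst (FH mu e b) b) (LinearMap.id : KQ (POpen (FH mu e b) b) 2 →ₗ[ℚ] _) ⊔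
        AA (POpen (FH mu e b) b)) := by
  rcases i with _ | i <;> rcases j with _ | j
  · exact (le_sup_right : MM (pcst (FH mu e b) b) ≤ _)
      ((le_sup_right : AA (POpen (FH mu e b) b) ≤ _) (Submodule.subset_span ⟨_, rfl⟩))
  · obtain ⟨z', h1, h2⟩ := pi2_z hmu he j
    exact mem_of_pi2 _ h1 h2
  · obtain ⟨z', h1, h2⟩ := pi2_z hmu he i
    refine mem_of_pi2 (z' := -z') _ (Submodule.neg_mem _ h1) ?_
    rw [map_neg, ← h2, ← (alt_pi2 _).swap]
    rfl
  · refine mem_of_pi2 (z' := 0) _ (Submodule.zero_mem _) ?_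
    rw [map_zero]
    by_cases hij : i = j
    · subst hij
      exact alt_pi2 _ _
    · exact pi2_xx hb hij

end Pool.Agent.X232.CF.H
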