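import Pool.Agent.X232.CF.E.Unit
import Pool.Agent.X232.CF.Quo
set_option autoImplicit false

/-!
The curves `z + 1/z = 2 e + μ ∏ (x - b_i)`, `e = ± 1`: polynomials in `z`, the places.
-/

namespace Pool.Agent.X232.CF.H

open Polynomial

open Pool.Agent.TH826.HD

open Pool.Agent.X232.CU (exists_root od_coe ti ti_ne_zero order_ti ti_eq)

open Pool.Agent.X232.CF.E (mkO mkO_C mkO_X mkO_surj exists_rep exists_pq exists_dvd_of exists_dvd_x
  zpol zpol_X zpol_C isDomain_POpen mkPl mkPl_ppol mkPl_pz mkPl_cst mkPl_ux mkPl_uz mkPl_inj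
  hensel_quad PS PS_C ti_X order_X PS_ne order_ti_sub ti_sub_ne eval₂_PS const_eval eval_ti
  eval_ti_ne order_eval_ti eval_PS_ne)

section gen

variable {K : Type*} [Field K] {F : K[X]} {n : ℕ} {b : Fin n → K}

theorem toP_ppol (p : K[X]) : toP F b (ppol F p) =
    p.eval₂ (pcst F b) (toP F b (ppol F X)) := by
  induction p using Polynomial.induction_on' with
  | add p q hp hq => rw [map_add, map_add, hp, hq, eval₂_add]
  | monomial m c =>
    rw [← C_mul_X_pow_eq_monomial, map_mul, map_mul, map_pow, map_pow, eval₂_mul, eval₂_C,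
      eval₂_X_pow]
    rfl

/-- every nonzero function divides a nonzero polynomial in `z` -/
theorem exists_dvd_z (hF : 0 < F.natDegree) {f : POpen F b} (hf : f ≠ 0) :
    ∃ c : K[X], c ≠ 0 ∧ f ∣ zpol F b c := by
  refine exists_dvd_of hF (zpol F b) (fun c => zpol_C _ _ c)
    ⟨C X * F.map C - C (X ^ 2 + 1), ?_, ?_⟩ ⟨X - C X, X_sub_C_ne_zero _, ?_⟩ hf
  · intro h
    have h1 := congrArg (fun P : K[X][X] => P.coeff F.natDegree) h
    simp only [coeff_sub, coeff_C_mul, coeff_map, coeff_zero] at h1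
    rw [coeff_C_of_ne_zero (by omega), sub_zero, mul_eq_zero] at h1
    rcases h1 with h1 | h1
    · exact X_ne_zero h1
    · rw [C_eq_zero, coeff_natDegree, leadingCoeff_eq_zero] at h1
      rw [h1, natDegree_zero] at hF
      exact lt_irrefl _ hF
  · have h := congrArg (toP F b) (pz_eq F)
    rw [map_zero, map_add, map_sub, map_mul, map_pow, map_one, toP_ppol] at h
    have e : (F.map C).eval₂ (zpol F b) (toP F b (ppol F X)) =
        F.eval₂ (pcst F b) (toP F b (ppol F X)) := by
      rw [eval₂_map]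
      congr 1
      exact RingHom.ext fun c => zpol_C _ _ c
    rw [eval₂_sub, eval₂_mul, eval₂_C, eval₂_C, e, map_add, map_pow, map_one, zpol_X]
    linear_combination -h
  · simp [zpol_X]

end gen

section fam

variable {K : Type*} [Field K] {g : ℕ} (mu e : K) (b : Fin (g + 1) → K)

/-- the polynomial `2 e + μ ∏ (x - b_i)` -/
noncomputable def FH : K[X] := C (2 * e) + C mu * ∏ i, (X - C (b i))

theorem eval₂_FH {S : Type*} [CommRing S] (φ : K →+* S) (x : S) :
    (FH mu e b).eval₂ φ x = φ (2 * e) + φ mu * ∏ i, (x - φ (b i)) := by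
  unfold FH
  rw [eval₂_add, eval₂_mul, eval₂_C, eval₂_C, eval₂_finsetProd]
  simp only [eval₂_sub, eval₂_X, eval₂_C]

variable {mu e b}

theorem monic_prod : (∏ i, (X - C (b i))).Monic :=
  monic_prod_of_monic _ _ fun _ _ => monic_X_sub_C _

theorem natDegree_prodX : (∏ i, (X - C (b i))).natDegree = g + 1 := by
  rw [natDegree_prod_of_monic _ _ fun i _ => monic_X_sub_C _]
  simp

theorem natDegree_FH (hmu : mu ≠ 0) : (FH mu e b).natDegree = g + 1 := by
  unfold FH
  rw [add_comm, natDegree_add_C, natDegree_C_mul hmu, natDegree_prodX]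

theorem pos_FH (hmu : mu ≠ 0) : 0 < (FH mu e b).natDegree := by
  rw [natDegree_FH hmu]
  exact Nat.succ_pos g

theorem lead_FH (hmu : mu ≠ 0) : (FH mu e b).leadingCoeff = mu := by
  rw [leadingCoeff, natDegree_FH hmu]
  unfold FH
  rw [coeff_add, coeff_C_of_ne_zero (Nat.succ_ne_zero g), zero_add, coeff_C_mul]
  have h := (monic_prod (b := b)).coeff_natDegree
  rw [natDegree_prodX] at h
  rw [h, mul_one]

end fam

section pl

variable {K : Type*} [Field K] {g : ℕ} {mu e : K} {b : Fin (g + 1) → K}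

theorem sq_ne_zero' (he : e ^ 2 = 1) : e ≠ 0 := by
  rintro rfl
  rw [zero_pow two_ne_zero] at he
  exact zero_ne_one he

/-- the power series of `x` at the points -/
theorem exists_xi (hmu : mu ≠ 0) (he : e ^ 2 = 1) (hb : Function.Injective b) (i : Fin (g + 1)) :
    ∃ ξ : PowerSeries K, (∏ j, (ξ - PowerSeries.C (b j))) *
      (PowerSeries.C mu * (PowerSeries.C e + PowerSeries.X)) = PowerSeries.X ^ 2 ∧
      PowerSeries.constantCoeff ξ = b i := by
  set Q : PowerSeries K := PowerSeries.C mu * (PowerSeries.C e + PowerSeries.X) with hQ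
  have hQ0 : PowerSeries.constantCoeff Q ≠ 0 := by
    rw [hQ, map_mul, map_add, PowerSeries.constantCoeff_C, PowerSeries.constantCoeff_C,
      PowerSeries.constantCoeff_X, add_zero]
    exact mul_ne_zero hmu (sq_ne_zero' he)
  have hQi : Q * Q⁻¹ = 1 := PowerSeries.mul_inv_cancel Q hQ0
  obtain ⟨ξ, h1, h2⟩ := exists_root (m := g) b hb (PowerSeries.X ^ 2 * Q⁻¹) (by simp) i
  refine ⟨ξ, ?_, h2⟩
  rw [h1, mul_assoc, mul_comm Q⁻¹ Q, hQi, mul_one]

variable (hmu : mu ≠ 0) (he : e ^ 2 = 1) (hb : Function.Injective b)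

/-- the power series of `x` -/
noncomputable def xi (i : Fin (g + 1)) : PowerSeries K := (exists_xi hmu he hb i).choose

theorem xi_eq (i : Fin (g + 1)) : (∏ j, (xi hmu he hb i - PowerSeries.C (b j))) *
      (PowerSeries.C mu * (PowerSeries.C e + PowerSeries.X)) = PowerSeries.X ^ 2 :=
  (exists_xi hmu he hb i).choose_spec.1

theorem xi_const (i : Fin (g + 1)) : PowerSeries.constantCoeff (xi hmu he hb i) = b i :=
  (exists_xi hmu he hb i).choose_spec.2

theorem pt_eq (i : Fin (g + 1)) : PS K (PowerSeries.C e + PowerSeries.X) ^ 2 -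
    (FH mu e b).eval₂ HahnSeries.C (PS K (xi hmu he hb i)) *
      PS K (PowerSeries.C e + PowerSeries.X) + 1 = 0 := by
  have h1 := xi_eq hmu he hb i
  have h3 : (PowerSeries.C (e ^ 2) : PowerSeries K) = 1 := by rw [he, map_one]
  have h4 : (PowerSeries.C (2 * e) : PowerSeries K) = 2 * PowerSeries.C e := by
    rw [map_mul]
    congr 1
  rw [map_pow] at h3
  rw [eval₂_FH, ← PS_C, ← PS_C]
  have e5 : ∏ j, (PS K (xi hmu he hb i) - HahnSeries.C (b j)) =
      PS K (∏ j, (xi hmu he hb i - PowerSeries.C (b j))) := by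
    rw [map_prod]
    exact Finset.prod_congr rfl fun j _ => by rw [map_sub, PS_C]
  rw [e5, ← map_mul, ← map_add, ← map_mul, ← map_pow, ← map_sub, ← map_one (PS K), ← map_add]
  have h5 : (PowerSeries.C e + PowerSeries.X : PowerSeries K) ^ 2 -
      (PowerSeries.C (2 * e) + PowerSeries.C mu * ∏ j, (xi hmu he hb i - PowerSeries.C (b j))) *
        (PowerSeries.C e + PowerSeries.X) + 1 = 0 := by
    rw [h4]
    linear_combination -h1 + (-1) * h3
  rw [h5, map_zero]

theorem xi_sub_ne (i : Fin (g + 1)) : xi hmu he hb i - PowerSeries.C (b i) ≠ 0 := by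
  intro h
  have h1 := xi_eq hmu he hb i
  rw [Finset.prod_eq_zero (Finset.mem_univ i) h, zero_mul] at h1
  exact pow_ne_zero 2 PowerSeries.X_ne_zero h1.symm

theorem xi_cc_ne {i m : Fin (g + 1)} (hm : m ≠ i) :
    PowerSeries.constantCoeff (xi hmu he hb i - PowerSeries.C (b m)) ≠ 0 := by
  rw [map_sub, xi_const, PowerSeries.constantCoeff_C, sub_ne_zero]
  exact fun h => hm (hb h).symm

theorem pt_ne (i m : Fin (g + 1)) : PS K (xi hmu he hb i) - HahnSeries.C (b m) ≠ 0 := by
  rw [← PS_C, ← map_sub]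
  by_cases hm : m = i
  · subst hm
    rw [Ne, map_eq_zero_iff _ HahnSeries.ofPowerSeries_injective]
    exact xi_sub_ne hmu he hb m
  · exact PS_ne (xi_cc_ne hmu he hb hm)

/-- the place at the point `(b_i, e)` -/
noncomputable def pT (i : Fin (g + 1)) : POpen (FH mu e b) b →+* HahnSeries ℤ K :=
  mkPl (FH mu e b) b (PS K (xi hmu he hb i)) (PS K (PowerSeries.C e + PowerSeries.X))
    (pt_eq hmu he hb i) (pt_ne hmu he hb i)

theorem e_const : PowerSeries.constantCoeff
    (PowerSeries.C e + PowerSeries.X : PowerSeries K) = e := by simp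

theorem pT_uz (i : Fin (g + 1)) :
    (pT hmu he hb i (uz (FH mu e b) b : POpen (FH mu e b) b)).order = 0 := by
  unfold pT
  rw [mkPl_uz, od_coe]
  rw [e_const]
  exact sq_ne_zero' he

theorem pT_ux_ne {i m : Fin (g + 1)} (h : m ≠ i) :
    (pT hmu he hb i (ux (FH mu e b) b m : POpen (FH mu e b) b)).order = 0 := by
  unfold pT
  rw [mkPl_ux, ← PS_C, ← map_sub, od_coe]
  exact xi_cc_ne hmu he hb h

/-- the unit in the equation -/
noncomputable def ru (i : Fin (g + 1)) : PowerSeries K :=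
  (∏ j ∈ Finset.univ.erase i, (xi hmu he hb i - PowerSeries.C (b j))) *
    (PowerSeries.C mu * (PowerSeries.C e + PowerSeries.X))

theorem ru_cc (i : Fin (g + 1)) : PowerSeries.constantCoeff (ru hmu he hb i) ≠ 0 := by
  unfold ru
  rw [map_mul, map_mul, e_const, PowerSeries.constantCoeff_C, map_prod]
  refine mul_ne_zero (Finset.prod_ne_zero_iff.2 fun j hj => ?_) (mul_ne_zero hmu (sq_ne_zero' he))
  exact xi_cc_ne hmu he hb (Finset.ne_of_mem_erase hj)

theorem ru_eq (i : Fin (g + 1)) :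
    (xi hmu he hb i - PowerSeries.C (b i)) * ru hmu he hb i = PowerSeries.X ^ 2 := by
  unfold ru
  rw [← mul_assoc, Finset.mul_prod_erase Finset.univ
    (fun j => xi hmu he hb i - PowerSeries.C (b j)) (Finset.mem_univ i)]
  exact xi_eq hmu he hb i

theorem pT_ux (i : Fin (g + 1)) :
    (pT hmu he hb i (ux (FH mu e b) b i : POpen (FH mu e b) b)).order = 2 := by
  unfold pT
  rw [mkPl_ux, ← PS_C, ← map_sub]
  have h1 := congrArg (fun p => (PS K p).order) (ru_eq hmu he hb i)
  have n1 : PS K (xi hmu he hb i - PowerSeries.C (b i)) ≠ 0 := by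
    rw [Ne, map_eq_zero_iff _ HahnSeries.ofPowerSeries_injective]
    exact xi_sub_ne hmu he hb i
  have c3 := ru_cc hmu he hb i
  have h2 : (PS K (PowerSeries.X ^ 2)).order = 2 := by
    rw [map_pow, HahnSeries.order_pow, order_X]
    norm_num
  simp only [h2] at h1
  rw [map_mul, HahnSeries.order_mul n1 (PS_ne c3), od_coe c3, add_zero] at h1
  exact h1

theorem pT_unif (i : Fin (g + 1)) : (pT hmu he hb i (toP (FH mu e b) b (pz (FH mu e b)) -
    pcst (FH mu e b) b e)).order = 1 := by
  unfold pT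
  rw [map_sub, mkPl_pz, mkPl_cst, map_add, PS_C, add_sub_cancel_left, order_X]

theorem pT_inj (i : Fin (g + 1)) : Function.Injective (pT hmu he hb i) := by
  refine mkPl_inj _ _ _ _ (pos_FH hmu) fun p hp => eval_PS_ne hp ?_
  rw [xi_const]
  exact xi_sub_ne hmu he hb i

/-- the power series of `F x⁻ᴺ` at infinity -/
noncomputable def qt (mu e : K) (b : Fin (g + 1) → K) : PowerSeries K :=
  (eval_ti (FH mu e b)).choose

include hmu in
theorem qt_cc : PowerSeries.constantCoeff (qt mu e b) = mu :=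
  (eval_ti (FH mu e b)).choose_spec.1.trans (lead_FH hmu)

include hmu in
theorem qt_eq : (FH mu e b).eval₂ HahnSeries.C (ti K) = ti K ^ (g + 1) * PS K (qt mu e b) := by
  exact (eval_ti (FH mu e b)).choose_spec.2.trans
    (congrArg (fun n => ti K ^ n * PS K (qt mu e b)) (natDegree_FH hmu))

variable (e b)

include hmu in
theorem exists_zeta : ∃ ζ : PowerSeries K,
    ζ ^ 2 - qt mu e b * ζ + PowerSeries.X ^ (2 * (g + 1)) = 0 ∧
      PowerSeries.constantCoeff ζ = mu := by
  obtain ⟨ζ, h1, h2⟩ := hensel_quad (qt mu e b) (PowerSeries.X ^ (2 * (g + 1)))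
    (by rwa [qt_cc hmu]) (by simp)
  exact ⟨ζ, h1, by rw [h2, qt_cc hmu]⟩

/-- the power series of `z x⁻ᴺ` -/
noncomputable def zt : PowerSeries K := (exists_zeta e b hmu).choose

theorem zt_eq : zt e b hmu ^ 2 - qt mu e b * zt e b hmu + PowerSeries.X ^ (2 * (g + 1)) = 0 :=
  (exists_zeta e b hmu).choose_spec.1

theorem zt_const : PowerSeries.constantCoeff (zt e b hmu) = mu :=
  (exists_zeta e b hmu).choose_spec.2

/-- `z` at infinity -/
noncomputable def zi : HahnSeries ℤ K := ti K ^ (g + 1) * PS K (zt e b hmu)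

theorem zi_eq : zi e b hmu ^ 2 - (ti K ^ (g + 1) * PS K (qt mu e b)) * zi e b hmu + 1 = 0 := by
  have h1 := congrArg (PS K) (zt_eq e b hmu)
  rw [map_zero, map_add, map_sub, map_mul, map_pow, map_pow] at h1
  have h2 := ti_X (K := K)
  unfold zi
  have h3 : ti K ^ (2 * (g + 1)) * PS K PowerSeries.X ^ (2 * (g + 1)) = 1 := by
    rw [← mul_pow, h2, one_pow]
  have h4 : ti K ^ (2 * (g + 1)) = ti K ^ (g + 1) * ti K ^ (g + 1) := by ring
  rw [h4] at h3
  linear_combination (ti K ^ (g + 1) * ti K ^ (g + 1)) * h1 - h3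

/-- `z` at the two places at infinity -/
noncomputable def zs (s : Bool) : HahnSeries ℤ K :=
  if s then zi e b hmu else ti K ^ (g + 1) * PS K (qt mu e b) - zi e b hmu

theorem zs_eq (s : Bool) : zs e b hmu s ^ 2 -
    (FH mu e b).eval₂ HahnSeries.C (ti K) * zs e b hmu s + 1 = 0 := by
  rw [qt_eq hmu]
  have h := zi_eq e b hmu
  unfold zs
  cases s
  · rw [if_neg (by decide)]
    linear_combination h
  · rw [if_pos rfl]
    exact h

theorem zi_ne : zi e b hmu ≠ 0 :=
  mul_ne_zero (pow_ne_zero _ ti_ne_zero) (PS_ne (by rw [zt_const]; exact hmu))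

theorem order_zi : (zi e b hmu).order = -(g + 1 : ℤ) := by
  have h : PowerSeries.constantCoeff (zt e b hmu) ≠ 0 := by rw [zt_const]; exact hmu
  unfold zi
  rw [HahnSeries.order_mul (pow_ne_zero _ ti_ne_zero) (PS_ne h), od_coe h, HahnSeries.order_pow,
    order_ti]
  simp

theorem zi_mul : zi e b hmu * (ti K ^ (g + 1) * PS K (qt mu e b) - zi e b hmu) = 1 := by
  linear_combination -(zi_eq e b hmu)

theorem order_zs (s : Bool) : (zs e b hmu s).order = if s then -(g + 1 : ℤ) else g + 1 := by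
  unfold zs
  cases s
  · rw [if_neg (by decide), if_neg (by decide)]
    have h1 := zi_mul e b hmu
    have h2 : (ti K ^ (g + 1) * PS K (qt mu e b) - zi e b hmu) ≠ 0 := by
      intro h
      rw [h, mul_zero] at h1
      exact zero_ne_one h1
    have h3 := congrArg HahnSeries.order h1
    rw [HahnSeries.order_mul (zi_ne e b hmu) h2, order_zi, HahnSeries.order_one] at h3
    omega
  · rw [if_pos rfl, if_pos rfl]
    exact order_zi e b hmu

/-- the places at infinity -/
noncomputable def pI (s : Bool) : POpen (FH mu e b) b →+* HahnSeries ℤ K :=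
  mkPl (FH mu e b) b (ti K) (zs e b hmu s) (zs_eq e b hmu s) fun _ => ti_sub_ne _

theorem pI_uz (s : Bool) : (pI e b hmu s (uz (FH mu e b) b : POpen (FH mu e b) b)).order =
    if s then -(g + 1 : ℤ) else g + 1 := by
  unfold pI
  rw [mkPl_uz, order_zs]

theorem pI_ux (s : Bool) (m : Fin (g + 1)) :
    (pI e b hmu s (ux (FH mu e b) b m : POpen (FH mu e b) b)).order = -1 := by
  unfold pI
  rw [mkPl_ux, order_ti_sub]

theorem pI_inj (s : Bool) : Function.Injective (pI e b hmu s) :=
  mkPl_inj _ _ _ _ (pos_FH hmu) fun _ hp => eval_ti_ne hp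

variable {e b}

/-- all places -/
noncomputable def plH : Fin (g + 1) ⊕ Bool → POpen (FH mu e b) b →+* HahnSeries ℤ K :=
  Sum.elim (pT hmu he hb) (pI e b hmu)

end pl

end Pool.Agent.X232.CF.H
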