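import Pool.Agent.X232.CF.H.Ring
set_option autoImplicit false

/-!
The units of the open part of the curve `z + 1/z = 2 e + μ ∏ (x - b_i)`, up to finite index.
-/

namespace Pool.Agent.X232.CF.H

open Polynomial

open Pool.Agent.TH826.HD

open Pool.Agent.X232.CU (od_coe ti ti_ne_zero order_ti ti_eq)

open Pool.Agent.X232.CF.E (exists_rep exists_pq exists_dvd_of exists_dvd_x
  isDomain_POpen mkPl mkPl_ppol mkPl_pz mkPl_cst mkPl_ux mkPl_uz mkPl_inj
  PS PS_C ti_X order_X PS_ne ti_sub_ne eval₂_PS eval_ti_ne order_eval_ti ord_mul ord_zpow ord_pow ord_inv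
  ord_prod X2_dvd_of_order order_sub_nonneg)

variable {K : Type*} [Field K] {g : ℕ} {mu e : K} {b : Fin (g + 1) → K}
  (hmu : mu ≠ 0) (he : e ^ 2 = 1) (hb : Function.Injective b)

/-- the series of a function without a denominator -/
noncomputable def sr (i : Fin (g + 1)) (p q : K[X]) : PowerSeries K :=
  p.eval₂ PowerSeries.C (xi hmu he hb i) +
    q.eval₂ PowerSeries.C (xi hmu he hb i) * (PowerSeries.C e + PowerSeries.X)

theorem pT_pq (i : Fin (g + 1)) (p q : K[X]) :
    pT hmu he hb i (toP (FH mu e b) b (ppol (FH mu e b) p + ppol (FH mu e b) q *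
      pz (FH mu e b))) = PS K (sr hmu he hb i p q) := by
  have e1 : ∀ p : K[X], pT hmu he hb i (toP (FH mu e b) b (ppol (FH mu e b) p)) =
      PS K (p.eval₂ PowerSeries.C (xi hmu he hb i)) := fun p =>
    (mkPl_ppol _ _ _ _ p).trans (eval₂_PS p _)
  have e2 : pT hmu he hb i (toP (FH mu e b) b (pz (FH mu e b))) =
      PS K (PowerSeries.C e + PowerSeries.X) := mkPl_pz _ _ _ _
  rw [map_add, map_mul, map_add, map_mul, e1, e1, e2, ← map_mul, ← map_add]
  rfl

theorem X2_dvd_xi (i : Fin (g + 1)) :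
    (PowerSeries.X : PowerSeries K) ^ 2 ∣ xi hmu he hb i - PowerSeries.C (b i) := by
  have h1 := ru_eq hmu he hb i
  have u : IsUnit (ru hmu he hb i) := by
    rw [PowerSeries.isUnit_iff_constantCoeff, isUnit_iff_ne_zero]
    exact ru_cc hmu he hb i
  exact u.dvd_mul_right.1 (by rw [h1])

theorem X2_dvd_eval (i : Fin (g + 1)) (p : K[X]) : (PowerSeries.X : PowerSeries K) ^ 2 ∣
    p.eval₂ PowerSeries.C (xi hmu he hb i) - PowerSeries.C (p.eval (b i)) := by
  refine (X2_dvd_xi hmu he hb i).trans ?_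
  have h1 := sub_dvd_eval_sub (xi hmu he hb i) (PowerSeries.C (b i)) (p.map PowerSeries.C)
  rwa [eval_map, eval_map, eval₂_at_apply] at h1

theorem pq_zero (i : Fin (g + 1)) (p q : K[X])
    (h : (PowerSeries.X : PowerSeries K) ^ 2 ∣ sr hmu he hb i p q) :
    p.eval (b i) = 0 ∧ q.eval (b i) = 0 := by
  have h1 := X2_dvd_eval hmu he hb i p
  have h2 := (X2_dvd_eval hmu he hb i q).mul_right (PowerSeries.C e + PowerSeries.X)
  have h3 := dvd_sub h (dvd_add h1 h2)
  have e' : sr hmu he hb i p q - (p.eval₂ PowerSeries.C (xi hmu he hb i) -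
      PowerSeries.C (p.eval (b i)) + (q.eval₂ PowerSeries.C (xi hmu he hb i) -
      PowerSeries.C (q.eval (b i))) * (PowerSeries.C e + PowerSeries.X)) =
      PowerSeries.C (p.eval (b i)) + PowerSeries.C (q.eval (b i)) *
        (PowerSeries.C e + PowerSeries.X) := by
    unfold sr
    ring
  rw [e', PowerSeries.X_pow_dvd_iff] at h3
  have h4 := h3 0 (by norm_num)
  have h5 := h3 1 (by norm_num)
  have h6 : q.eval (b i) = 0 := by
    rw [map_add, PowerSeries.coeff_C_mul, map_add, PowerSeries.coeff_C, PowerSeries.coeff_C,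
      PowerSeries.coeff_one_X] at h5
    simpa using h5
  refine ⟨?_, h6⟩
  rw [h6] at h4
  simpa using h4

theorem coe_prod_ux : ((∏ m, ux (FH mu e b) b m : (POpen (FH mu e b) b)ˣ) :
    POpen (FH mu e b) b) = toP (FH mu e b) b (pDel (FH mu e b) b) := by
  rw [Units.coe_prod]
  unfold pDel
  rw [map_prod, map_prod]
  exact Finset.prod_congr rfl fun m _ => coe_ux _ _ m

theorem pT_Del (i : Fin (g + 1)) :
    (pT hmu he hb i (toP (FH mu e b) b (pDel (FH mu e b) b))).order = 2 := by
  rw [← coe_prod_ux, ord_prod, Finset.sum_eq_single i]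
  · exact pT_ux hmu he hb i
  · intro m _ hm
    exact pT_ux_ne hmu he hb hm
  · intro h
    exact absurd (Finset.mem_univ i) h

theorem pT_ne (i : Fin (g + 1)) {f : POpen (FH mu e b) b} (hf : f ≠ 0) :
    pT hmu he hb i f ≠ 0 := by
  rw [Ne, map_eq_zero_iff _ (pT_inj hmu he hb i)]
  exact hf

theorem no_denom (k : ℕ) {f : POpen (FH mu e b) b} (hf : f ≠ 0)
    (hT : ∀ i, 0 ≤ (pT hmu he hb i f).order)
    (hk : ∃ r, f * toP (FH mu e b) b (pDel (FH mu e b) b) ^ k = toP (FH mu e b) b r) :
    ∃ r, f = toP (FH mu e b) b r := by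
  have hu : IsUnit (toP (FH mu e b) b (pDel (FH mu e b) b)) := isUnit_pDel _ _
  have hdom : IsDomain (POpen (FH mu e b) b) := isDomain_POpen (pos_FH hmu)
  induction k with
  | zero =>
    obtain ⟨r, hr⟩ := hk
    exact ⟨r, by rw [← hr, pow_zero, mul_one]⟩
  | succ k ih =>
    refine ih ?_
    obtain ⟨r, hr⟩ := hk
    obtain ⟨p, q, rfl⟩ := exists_pq r
    have hroot : ∀ i, p.eval (b i) = 0 ∧ q.eval (b i) = 0 := by
      intro i
      refine pq_zero hmu he hb i p q (X2_dvd_of_order ?_)
      rw [← pT_pq, ← hr, map_mul, map_pow, HahnSeries.order_mul (pT_ne hmu he hb i hf)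
        (pow_ne_zero _ (pT_ne hmu he hb i hu.ne_zero)), HahnSeries.order_pow, pT_Del]
      have := hT i
      simp only [nsmul_eq_mul]
      push_cast
      nlinarith
    have hdvd : ∀ p : K[X], (∀ i, p.eval (b i) = 0) → (∏ m, (X - C (b m))) ∣ p := by
      intro p hp
      refine Finset.prod_dvd_of_coprime ?_ fun i _ => dvd_iff_isRoot.2 (hp i)
      intro i _ j _ hij
      exact isCoprime_X_sub_C_of_isUnit_sub (sub_ne_zero_of_ne (hb.ne hij)).isUnit
    obtain ⟨p', rfl⟩ := hdvd p fun i => (hroot i).1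
    obtain ⟨q', rfl⟩ := hdvd q fun i => (hroot i).2
    refine ⟨ppol (FH mu e b) p' + ppol (FH mu e b) q' * pz (FH mu e b), ?_⟩
    refine hu.mul_right_cancel ?_
    rw [mul_assoc, ← pow_succ, hr]
    unfold pDel
    simp only [map_mul, map_add]
    ring

theorem order_zs_sub : (zs e b hmu true - zs e b hmu false).order = -(g + 1 : ℤ) := by
  have e' : zs e b hmu true - zs e b hmu false =
      ti K ^ (g + 1) * PS K (2 * zt e b hmu - qt mu e b) := by
    unfold zs
    rw [if_pos rfl, if_neg (by decide)]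
    unfold zi
    rw [map_sub, map_mul]
    have h3 : PS K 2 = 2 := map_ofNat _ 2
    rw [h3]
    ring
  have hc : PowerSeries.constantCoeff (2 * zt e b hmu - qt mu e b) = mu := by
    have h3 : PowerSeries.constantCoeff (2 : PowerSeries K) = 2 := map_ofNat _ 2
    rw [map_sub, map_mul, h3, zt_const, qt_cc hmu]
    ring
  have hc' : PowerSeries.constantCoeff (2 * zt e b hmu - qt mu e b) ≠ 0 := by rwa [hc]
  rw [e', HahnSeries.order_mul (pow_ne_zero _ ti_ne_zero) (PS_ne hc'), od_coe hc',
    HahnSeries.order_pow, order_ti]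
  simp

theorem pI_pq (s : Bool) (p q : K[X]) :
    pI e b hmu s (toP (FH mu e b) b (ppol (FH mu e b) p + ppol (FH mu e b) q *
      pz (FH mu e b))) = p.eval₂ HahnSeries.C (ti K) + q.eval₂ HahnSeries.C (ti K) *
        zs e b hmu s := by
  unfold pI
  rw [map_add, map_mul, map_add, map_mul, mkPl_ppol, mkPl_ppol, mkPl_pz]

/-- functions without poles are constant -/
theorem const_of_order {f : POpen (FH mu e b) b} (hf : f ≠ 0)
    (hT : ∀ i, 0 ≤ (pT hmu he hb i f).order) (hI : ∀ s, 0 ≤ (pI e b hmu s f).order) :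
    ∃ c, f = pcst (FH mu e b) b c := by
  obtain ⟨r, k, hr⟩ := exists_rep f
  obtain ⟨r, rfl⟩ := no_denom hmu he hb k hf hT ⟨r, hr⟩
  obtain ⟨p, q, rfl⟩ := exists_pq r
  have hq : q = 0 := by
    by_contra hq
    have h1 := hI true
    have h2 := hI false
    rw [pI_pq] at h1 h2
    have hz : zs e b hmu true - zs e b hmu false ≠ 0 := by
      intro h
      have := order_zs_sub (e := e) (b := b) hmu
      rw [h, HahnSeries.order_zero] at this
      omega
    have e' : p.eval₂ HahnSeries.C (ti K) + q.eval₂ HahnSeries.C (ti K) * zs e b hmu true -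
        (p.eval₂ HahnSeries.C (ti K) + q.eval₂ HahnSeries.C (ti K) * zs e b hmu false) =
        q.eval₂ HahnSeries.C (ti K) * (zs e b hmu true - zs e b hmu false) := by ring
    have h3 := order_sub_nonneg h1 h2 (by rw [e']; exact mul_ne_zero (eval_ti_ne hq) hz)
    rw [e', HahnSeries.order_mul (eval_ti_ne hq) hz, order_eval_ti hq, order_zs_sub] at h3
    omega
  subst hq
  have hp : p ≠ 0 := by
    rintro rfl
    apply hf
    simp
  have h1 := hI true
  rw [pI_pq, eval₂_zero, zero_mul, add_zero, order_eval_ti hp] at h1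
  have h2 : p.natDegree = 0 := by omega
  refine ⟨p.coeff 0, ?_⟩
  rw [map_zero, zero_mul, add_zero]
  conv_lhs => rw [eq_C_of_natDegree_eq_zero h2]
  rfl

/-- the generators -/
noncomputable def gensH (mu e : K) (b : Fin (g + 1) → K) :
    Option (Fin (g + 1)) → (POpen (FH mu e b) b)ˣ :=
  fun j => j.elim (uz (FH mu e b) b) (ux (FH mu e b) b)

theorem const_unit {f : (POpen (FH mu e b) b)ˣ}
    (hT : ∀ i, 0 ≤ (pT hmu he hb i (f : POpen (FH mu e b) b)).order)
    (hI : ∀ s, 0 ≤ (pI e b hmu s (f : POpen (FH mu e b) b)).order) :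
    ∃ c : Kˣ, f = cu (pcst (FH mu e b) b) c := by
  have hdom : IsDomain (POpen (FH mu e b) b) := isDomain_POpen (pos_FH hmu)
  obtain ⟨c, hc⟩ := const_of_order hmu he hb f.ne_zero hT hI
  have hc0 : c ≠ 0 := by
    rintro rfl
    rw [map_zero] at hc
    exact f.ne_zero hc
  exact ⟨Units.mk0 c hc0, Units.ext hc⟩

include hmu he hb in
/-- the units -/
theorem units_H (f : (POpen (FH mu e b) b)ˣ) :
    ∃ (N : ℕ) (n : Option (Fin (g + 1)) → ℤ) (c : Kˣ), 0 < N ∧
    f ^ N = cu (pcst (FH mu e b) b) c * ∏ j, gensH mu e b j ^ n j := by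
  set N : ℤ := (g : ℤ) + 1 with hN
  set o : Fin (g + 1) → ℤ := fun i => (pT hmu he hb i (f : POpen (FH mu e b) b)).order with ho
  set k : ℤ := (pI e b hmu true (f : POpen (FH mu e b) b)).order -
    (pI e b hmu false (f : POpen (FH mu e b) b)).order with hk
  set n : Option (Fin (g + 1)) → ℤ := fun j => j.elim (-k) (fun i => N * o i) with hn
  set h : (POpen (FH mu e b) b)ˣ := f ^ (2 * (g + 1)) * (∏ j, gensH mu e b j ^ n j)⁻¹ with hh
  have hprod : (∏ j, gensH mu e b j ^ n j) = uz (FH mu e b) b ^ (-k) *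
      ∏ i, ux (FH mu e b) b i ^ (N * o i) := by
    rw [Fintype.prod_option]
    rfl
  have hordT : ∀ i, (pT hmu he hb i (h : POpen (FH mu e b) b)).order = 0 := by
    intro i
    rw [hh, ord_mul, ord_inv, hprod, ord_mul, ord_zpow, ord_prod, ord_pow, pT_uz,
      Finset.sum_eq_single i]
    · rw [ord_zpow, pT_ux]
      push_cast
      ring
    · intro m _ hm
      rw [ord_zpow, pT_ux_ne hmu he hb hm, mul_zero]
    · intro h
      exact absurd (Finset.mem_univ i) h
  have hordI : ∀ s, (pI e b hmu s (h : POpen (FH mu e b) b)).order =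
      N * (pI e b hmu true (f : POpen (FH mu e b) b)).order +
        N * (pI e b hmu false (f : POpen (FH mu e b) b)).order + ∑ i, N * o i := by
    intro s
    rw [hh, ord_mul, ord_inv, hprod, ord_mul, ord_zpow, ord_prod, ord_pow, pI_uz]
    have e1 : ∑ i, (pI e b hmu s ((ux (FH mu e b) b i ^ (N * o i) : (POpen (FH mu e b) b)ˣ) :
        POpen (FH mu e b) b)).order = -∑ i, N * o i := by
      rw [← Finset.sum_neg_distrib]
      refine Finset.sum_congr rfl fun i _ => ?_
      rw [ord_zpow, pI_ux]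
      ring
    rw [e1]
    cases s
    · rw [if_neg (by decide), hk]
      push_cast
      ring
    · rw [if_pos rfl, hk]
      push_cast
      ring
  have hfin : ∃ c : Kˣ, h = cu (pcst (FH mu e b) b) c := by
    rcases le_total 0 (N * (pI e b hmu true (f : POpen (FH mu e b) b)).order +
        N * (pI e b hmu false (f : POpen (FH mu e b) b)).order + ∑ i, N * o i) with hS | hS
    · exact const_unit hmu he hb (fun i => (hordT i).ge) fun s => by rw [hordI]; exact hS
    · obtain ⟨c, hc⟩ := const_unit hmu he hb (f := h⁻¹) (fun i => by rw [ord_inv, hordT]; simp)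
        fun s => by rw [ord_inv, hordI]; omega
      exact ⟨c⁻¹, by rw [map_inv, ← hc, inv_inv]⟩
  obtain ⟨c, hc⟩ := hfin
  refine ⟨2 * (g + 1), n, c, by omega, ?_⟩
  rw [← hc, hh, inv_mul_cancel_right]

theorem rank_H [CharZero K] (v : Option (Fin (g + 1)) → ℚ)
    (h : ∀ P, ∑ j, ((plH hmu he hb P (gensH mu e b j : POpen (FH mu e b) b)).order : ℚ) *
      v j = 0) : v = 0 := by
  have h1 : ∀ i, v (some i) = 0 := by
    intro i
    have h2 := h (Sum.inl i)
    rw [Fintype.sum_option] at h2
    have e0 : (plH hmu he hb (Sum.inl i) (gensH mu e b none : POpen (FH mu e b) b)).order = 0 :=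
      pT_uz hmu he hb i
    have e1 : ∀ m, (plH hmu he hb (Sum.inl i) (gensH mu e b (some m) :
        POpen (FH mu e b) b)).order = if m = i then 2 else 0 := by
      intro m
      by_cases hm : m = i
      · subst hm
        rw [if_pos rfl]
        exact pT_ux hmu he hb m
      · rw [if_neg hm]
        exact pT_ux_ne hmu he hb hm
    rw [e0] at h2
    simp only [e1] at h2
    rw [Finset.sum_eq_single i] at h2
    · rw [if_pos rfl] at h2
      push_cast at h2
      linarith
    · intro m _ hm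
      rw [if_neg hm]
      simp
    · intro h
      exact absurd (Finset.mem_univ i) h
  have h3 := h (Sum.inr true)
  rw [Fintype.sum_option] at h3
  simp only [h1, mul_zero, Finset.sum_const_zero, add_zero] at h3
  have e0 : (plH hmu he hb (Sum.inr true) (gensH mu e b none : POpen (FH mu e b) b)).order =
      -(g + 1 : ℤ) := (pI_uz e b hmu true).trans (if_pos rfl)
  rw [e0, mul_eq_zero] at h3
  have h4 : ((-(g + 1 : ℤ) : ℤ) : ℚ) ≠ 0 := by
    push_cast
    have : (0 : ℚ) < (g : ℚ) + 1 := by positivity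
    intro h
    linarith
  funext j
  rcases j with _ | i
  · rw [Pi.zero_apply]
    exact h3.resolve_left h4
  · exact h1 i

theorem unif_H (P : Fin (g + 1) ⊕ Bool) : ∃ a, (plH hmu he hb P a).order = 1 ∨
    (plH hmu he hb P a).order = -1 := by
  rcases P with i | s
  · exact ⟨_, Or.inl (pT_unif hmu he hb i)⟩
  · exact ⟨_, Or.inr (pI_ux e b hmu s 0)⟩

theorem inj_H (P : Fin (g + 1) ⊕ Bool) : Function.Injective (plH hmu he hb P) := by
  rcases P with i | s
  · exact pT_inj hmu he hb i
  · exact pI_inj e b hmu s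

theorem cst_H (P : Fin (g + 1) ⊕ Bool) (c : K) : plH hmu he hb P (pcst (FH mu e b) b c) =
    HahnSeries.C c := by
  rcases P with i | s
  · exact mkPl_cst _ _ (pt_eq hmu he hb i) (pt_ne hmu he hb i) c
  · exact mkPl_cst _ _ (zs_eq e b hmu s) (fun _ => ti_sub_ne _) c

end Pool.Agent.X232.CF.H
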